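import Pool.Agent.Helper964_DD.RG.ShiftAvg

/-!
# Transitive `K_{r+1}^r`-free hypergraphs

Let the vertices of an `r`-graph `H` be ordered. `H` is transitive if, whenever the first `r` and the
last `r` points of an `(r+1)`-set are edges, all `r`-subsets of it are edges. If `H` is also
`K_{r+1}^r`-free, then no `(r+1)`-set has both its first and its last `r` points as edges. We determine
the maximal number of edges of such hypergraphs for all `r` and `n`; the density is `1/2`. The case
`r = 4` is a restricted form of the Turán problem for `K_5^4`. A small proportion of exceptional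
`(r+1)`-sets does not change the density.

Outline. Pair the `r`-set `v_1 < ... < v_r` of `{0, ..., n-1}` with `v_1 + v_r < n - 1` with the set
`v_2, ..., v_r, n-1-v_1`: they are the first and the last `r` points of an `(r+1)`-set, so at most one of
them is an edge. All `r`-sets are in exactly one pair except those with `v_1 + v_r = n - 1`. In the
example, whose edges are the sets with `v_1 + v_{r-1} < n - 1 ≤ v_2 + v_r`, exactly one set of each pair
is an edge, and so are the sets with `v_1 + v_r = n - 1`.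
-/

set_option autoImplicit false
open Finset
open scoped Classical

namespace Pool.Agent.Results.MP_afdd4d_co.TransitiveHypergraphs

/-- The `r`-graph `H` contains no complete `r`-graph on `r + 1` vertices: every set of `r + 1` vertices
contains an `r`-set which is not an edge. -/
def KFree (r : ℕ) {n : ℕ} (H : Finset (Finset (Fin n))) : Prop :=
  ∀ Q : Finset (Fin n), Q.card = r + 1 → ∃ Z ⊆ Q, Z.card = r ∧ Z ∉ H

/-- The vertices are ordered by the values of the injective function `ρ`. The set `P` has `r + 1`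
points, the first being `a`, the last `z`; `P` without `z` and `P` without `a` are edges, but `P`
without `x` is not an edge for some point `x` of `P`. -/
def NonTransitive {n : ℕ} (ρ : Fin n → ℕ) (r : ℕ) (H : Finset (Finset (Fin n)))
    (P : Finset (Fin n)) : Prop :=
  P.card = r + 1 ∧ ∃ a ∈ P, ∃ z ∈ P, (∀ x ∈ P, ρ a ≤ ρ x ∧ ρ x ≤ ρ z) ∧
    P.erase z ∈ H ∧ P.erase a ∈ H ∧ ∃ x ∈ P, P.erase x ∉ H

/-- The `K_{r+1}^r`-free `r`-graphs on the vertices `0, ..., n-1` which are transitive (without
nontransitive sets) for some ordering `ρ` of the vertices. -/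
def TransitiveClass (r n : ℕ) : Set (Finset (Finset (Fin n))) :=
  {H | (∀ Z ∈ H, Z.card = r) ∧ KFree r H ∧
    ∃ ρ : Fin n → ℕ, Function.Injective ρ ∧ ∀ P : Finset (Fin n), ¬ NonTransitive ρ r H P}

theorem missing {r n : ℕ} {H : Finset (Finset (Fin n))} (hK : KFree r H) {P : Finset (Fin n)}
    (hP : P.card = r + 1) : ∃ x ∈ P, P.erase x ∉ H := by
  obtain ⟨Z, hZ, hZc, hZH⟩ := hK P hP
  obtain ⟨x, hx, hxZ⟩ : ∃ x ∈ P, x ∉ Z := by
    by_contra hcon
    push Not at hcon
    have := card_le_card (show P ⊆ Z from hcon)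
    omega
  have hZe : Z = P.erase x := by
    refine eq_of_subset_of_card_le (fun y hy => mem_erase.mpr ⟨?_, hZ hy⟩) ?_
    · rintro rfl; exact hxZ hy
    · rw [card_erase_of_mem hx]; omega
  exact ⟨x, hx, hZe ▸ hZH⟩

theorem upper {r n : ℕ} (hr : 2 ≤ r) : ∀ H ∈ TransitiveClass r n,
    2 * H.card ≤ n.choose r + ∑ j ∈ range (n / 2), (n - 2 - 2 * j).choose (r - 2) := by
  rintro H ⟨hH, hK, ρ, hρ, hB⟩
  rw [← Pool.Agent.Helper964_DD.RG.mid_card n hr]
  refine Pool.Agent.Helper964_DD.RG.trans_upper hr hρ hH ?_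
  rintro P hP a ha z hz haz ⟨h1, h2⟩
  exact hB P ⟨hP, a, ha, z, hz, haz, h1, h2, missing hK hP⟩

/-- **Transitive `K_{r+1}^r`-free hypergraphs.** For all `r ≥ 2`:
(1) The exact maximum of the number of edges of transitive `K_{r+1}^r`-free `r`-graphs, for every `n`.
(2) `K_{r+1}^r`-free `r`-graphs with few nontransitive sets have density at most `1/2 + ε`. -/
theorem result (r : ℕ) (hr : 2 ≤ r) :
    (∀ n : ℕ, IsGreatest (Finset.card '' TransitiveClass r n)
      ((n.choose r + ∑ j ∈ range (n / 2), (n - 2 - 2 * j).choose (r - 2)) / 2)) ∧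
    (∀ ε : ℝ, 0 < ε → ∃ δ : ℝ, 0 < δ ∧ ∃ n0 : ℕ, ∀ n : ℕ, n0 ≤ n → ∀ H : Finset (Finset (Fin n)),
      (∀ Z ∈ H, Z.card = r) → KFree r H →
      (∃ ρ : Fin n → ℕ, Function.Injective ρ ∧
        (((univ : Finset (Finset (Fin n))).filter fun P => NonTransitive ρ r H P).card : ℝ) ≤
          δ * (n.choose (r + 1) : ℝ)) →
      (H.card : ℝ) ≤ (1 / 2 + ε) * (n.choose r : ℝ)) := by
  constructor
  · intro n
    constructor
    · obtain ⟨H, hH, hB, hc⟩ := Pool.Agent.Helper964_DD.RG.trans_lower n hr
      rw [Pool.Agent.Helper964_DD.RG.mid_card n hr] at hc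
      have hmem : H ∈ TransitiveClass r n := by
        refine ⟨hH, ?_, fun v => v.1, fun v w h => Fin.ext h, ?_⟩
        · intro Q hQ
          have hne : Q.Nonempty := card_pos.mp (by omega)
          have hz := Q.max'_mem hne
          have ha := Q.min'_mem hne
          have h1 := hB Q hQ (Q.min' hne) ha (Q.max' hne) hz
            (fun x hx => ⟨Q.min'_le x hx, Q.le_max' x hx⟩)
          by_cases h2 : Q.erase (Q.max' hne) ∈ H
          · refine ⟨Q.erase (Q.min' hne), erase_subset _ _, by rw [card_erase_of_mem ha]; omega,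
              fun h => h1 ⟨h2, h⟩⟩
          · exact ⟨Q.erase (Q.max' hne), erase_subset _ _, by rw [card_erase_of_mem hz]; omega, h2⟩
        · rintro P ⟨hP, a, ha, z, hz, haz, h1, h2, _⟩
          exact hB P hP a ha z hz haz ⟨h1, h2⟩
      refine ⟨H, hmem, ?_⟩
      have := upper hr H hmem
      omega
    · rintro _ ⟨H, hH, rfl⟩
      have := upper hr H hH
      omega
  · intro ε hε
    obtain ⟨δ, hδ, n0, h⟩ := Pool.Agent.Helper964_DD.RG.trans_robust hr hε
    refine ⟨δ, hδ, n0, fun n hn H hH hK hbad => h n hn H hH ?_⟩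
    obtain ⟨ρ, hρ, hbad⟩ := hbad
    refine ⟨ρ, hρ, le_trans ?_ hbad⟩
    have h1 : ((univ : Finset (Finset (Fin n))).filter fun P =>
        Pool.Agent.Helper964_DD.RG.Both ρ r H P) ⊆
        (univ : Finset (Finset (Fin n))).filter fun P => NonTransitive ρ r H P := by
      intro P hP
      obtain ⟨hPc, a, ha, z, hz, haz, h2, h3⟩ := (mem_filter.mp hP).2
      exact mem_filter.mpr ⟨mem_univ _, hPc, a, ha, z, hz, haz, h2, h3, missing hK hPc⟩
    exact_mod_cast card_le_card h1

end Pool.Agent.Results.MP_afdd4d_co.TransitiveHypergraphs
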